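import Mathlib

/-!
# The Benes network

`2k` layers of conditional swaps on `2^k` wires (wires are indexed by `Fin k → Bool`) realise every
permutation.  Layer `t < k` works on bit `t`, layer `t ≥ k` on bit `2k-1-t`.
-/

namespace HWM.Benes

/-- Two fixed-point-free involutions have a common proper 2-colouring. -/
theorem exists_two_coloring {X : Type*} (α β : Equiv.Perm X)
    (hα : ∀ x, α (α x) = x) (hα' : ∀ x, α x ≠ x)
    (hβ : ∀ x, β (β x) = x) (hβ' : ∀ x, β x ≠ x) :
    ∃ f : X → Bool, (∀ x, f (α x) = !f x) ∧ ∀ x, f (β x) = !f x := by
  classical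
  set σ : Equiv.Perm X := β * α with hσ
  have hαinv : α⁻¹ = α := by
    ext x; rw [Equiv.Perm.inv_eq_iff_eq]; exact (hα x).symm
  have hβinv : β⁻¹ = β := by
    ext x; rw [Equiv.Perm.inv_eq_iff_eq]; exact (hβ x).symm
  have hαα : α * α = 1 := by ext x; simp [hα]
  have hββ : β * β = 1 := by ext x; simp [hβ]
  have hconj : α * σ * α⁻¹ = σ⁻¹ := by
    rw [hσ, mul_inv_rev, hαinv, hβinv]
    calc α * (β * α) * α = α * β * (α * α) := by group
      _ = α * β := by rw [hαα, mul_one]
  have hpow : ∀ (n : ℤ) (x : X), α ((σ ^ n) x) = (σ ^ (-n)) (α x) := by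
    intro n x
    have h1 : α * σ ^ n * α⁻¹ = σ ^ (-n) := by
      rw [← conj_zpow, hconj, inv_zpow, zpow_neg]
    have h2 : α * σ ^ n = σ ^ (-n) * α := by
      rw [← h1]; group
    have := congrArg (fun e : Equiv.Perm X => e x) h2
    simpa using this
  -- α x is never in the cycle of x
  have hne : ∀ x, ¬ σ.SameCycle x (α x) := by
    intro x ⟨n, hn⟩
    rcases Int.even_or_odd' n with ⟨m, rfl | rfl⟩
    · -- σ^(2m) x = α x
      apply hα' ((σ ^ m) x)
      rw [hpow, ← hn, ← Equiv.Perm.mul_apply, ← zpow_add]
      congr 2; ring
    · apply hβ' (α ((σ ^ m) x))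
      have h3 : β (α ((σ ^ m) x)) = (σ ^ (m + 1)) x := by
        have : σ ^ (m + 1) = σ * σ ^ m := by rw [add_comm, zpow_add, zpow_one]
        rw [this]; rfl
      rw [h3, hpow, ← hn, ← Equiv.Perm.mul_apply, ← zpow_add]
      congr 2; ring
  let S : Setoid X := Equiv.Perm.SameCycle.setoid σ
  have hSC : ∀ x y, σ.SameCycle x y → σ.SameCycle (α x) (α y) := by
    rintro x y ⟨n, hn⟩
    exact ⟨-n, by rw [← hpow, hn]⟩
  let a : Quotient S → Quotient S := Quotient.map α (fun x y h => hSC x y h)
  have haa : ∀ q, a (a q) = q := by
    intro q
    induction q using Quotient.inductionOn with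
    | h x =>
      change Quotient.mk S (α (α x)) = Quotient.mk S x
      rw [hα]
  have hane : ∀ q, a q ≠ q := by
    intro q
    induction q using Quotient.inductionOn with
    | h x =>
      intro h
      have : S.r (α x) x := Quotient.exact h
      exact hne x (Equiv.Perm.SameCycle.symm this)
  let _ : LinearOrder (Quotient S) := linearOrderOfSTO WellOrderingRel
  refine ⟨fun x => decide ((Quotient.mk S x) < a (Quotient.mk S x)), ?_, ?_⟩
  · intro x
    have h1 : Quotient.mk S (α x) = a (Quotient.mk S x) := rfl
    simp only [h1, haa]
    rcases lt_trichotomy (Quotient.mk S x) (a (Quotient.mk S x)) with h | h | h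
    · simp [h, not_lt.mpr h.le]
    · exact absurd h.symm (hane _)
    · simp [h, not_lt.mpr h.le]
  · intro x
    have h1 : Quotient.mk S (β x) = a (Quotient.mk S x) := by
      change Quotient.mk S (β x) = Quotient.mk S (α x)
      apply Quotient.sound
      change σ.SameCycle (β x) (α x)
      refine ⟨-1, ?_⟩
      rw [zpow_neg, zpow_one, hσ, mul_inv_rev, hαinv, hβinv]
      simp [hβ]
    simp only [h1, haa]
    rcases lt_trichotomy (Quotient.mk S x) (a (Quotient.mk S x)) with h | h | h
    · simp [h, not_lt.mpr h.le]
    · exact absurd h.symm (hane _)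
    · simp [h, not_lt.mpr h.le]

/-- Flip bit `j` of a wire. -/
def flip {k : ℕ} (j : Fin k) (w : Fin k → Bool) : Fin k → Bool := Function.update w j (!w j)

@[simp] theorem flip_self {k : ℕ} (j : Fin k) (w : Fin k → Bool) : flip j w j = !w j := by
  simp [flip]

theorem flip_of_ne {k : ℕ} {i j : Fin k} (h : i ≠ j) (w : Fin k → Bool) : flip j w i = w i := by
  simp [flip, Function.update_of_ne h]

@[simp] theorem flip_flip {k : ℕ} (j : Fin k) (w : Fin k → Bool) : flip j (flip j w) = w := by
  ext i
  by_cases h : i = j
  · subst h; simp
  · rw [flip_of_ne h, flip_of_ne h]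

theorem flip_ne {k : ℕ} (j : Fin k) (w : Fin k → Bool) : flip j w ≠ w := by
  intro h
  have := congrFun h j
  simp at this

/-- One layer: swap along bit `j` where `s` says so. -/
def layer {k : ℕ} (j : Fin k) (s : (Fin k → Bool) → Bool) (w : Fin k → Bool) : Fin k → Bool :=
  if s w then flip j w else w

/-- A switch setting for a layer on bit `j`: the same on both wires of a pair. -/
def Valid {k : ℕ} (j : Fin k) (s : (Fin k → Bool) → Bool) : Prop := ∀ w, s (flip j w) = s w

theorem layer_layer {k : ℕ} {j : Fin k} {s : (Fin k → Bool) → Bool} (h : Valid j s)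
    (w : Fin k → Bool) : layer j s (layer j s w) = w := by
  unfold layer
  by_cases hs : s w
  · simp [hs, h w]
  · simp [hs]

/-- The bit of layer `t` (`t < 2k`). -/
def bitAt (k t : ℕ) : ℕ := if t < k then t else 2 * k - 1 - t

theorem bitAt_lt {k t : ℕ} (h : t < 2 * k) : bitAt k t < k := by
  unfold bitAt; split_ifs <;> omega

/-- Apply a list of layers, head first. -/
def runL {k : ℕ} : List (Fin k × ((Fin k → Bool) → Bool)) → (Fin k → Bool) → (Fin k → Bool)
  | [], w => w
  | (j, s) :: L, w => runL L (layer j s w)

theorem runL_append {k : ℕ} (L L' : List (Fin k × ((Fin k → Bool) → Bool))) (w : Fin k → Bool) :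
    runL (L ++ L') w = runL L' (runL L w) := by
  induction L generalizing w with
  | nil => rfl
  | cons a L ih => simp [runL, ih]

/-- The list of bits of the layers. -/
def stages : (k : ℕ) → List (Fin k)
  | 0 => []
  | k + 1 => 0 :: ((stages k).map Fin.succ ++ [0])

theorem stages_length (k : ℕ) : (stages k).length = 2 * k := by
  induction k with
  | zero => rfl
  | succ k ih => simp [stages, ih]; ring

/-- lift a pair of layers (one for each value of bit 0) to a layer on one more bit. -/
def lift2 {k : ℕ} (s0 s1 : (Fin k → Bool) → Bool) : (Fin (k + 1) → Bool) → Bool :=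
  fun w => if w 0 then s1 (Fin.tail w) else s0 (Fin.tail w)

theorem tail_flip_succ {k : ℕ} (j : Fin k) (w : Fin (k + 1) → Bool) :
    Fin.tail (flip j.succ w) = flip j (Fin.tail w) := by
  ext i
  by_cases h : i = j
  · subst h; simp [Fin.tail]
  · rw [flip_of_ne h]
    simp only [Fin.tail]
    rw [flip_of_ne (by simpa using h)]

theorem flip_succ_zero {k : ℕ} (j : Fin k) (w : Fin (k + 1) → Bool) :
    flip j.succ w 0 = w 0 := by
  rw [flip_of_ne]; exact (Fin.succ_ne_zero j).symm

theorem tail_flip_zero {k : ℕ} (w : Fin (k + 1) → Bool) :
    Fin.tail (flip 0 w) = Fin.tail w := by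
  ext i
  simp only [Fin.tail]
  rw [flip_of_ne (Fin.succ_ne_zero i)]

theorem lift2_valid {k : ℕ} {j : Fin k} {s0 s1 : (Fin k → Bool) → Bool} (h0 : Valid j s0)
    (h1 : Valid j s1) : Valid j.succ (lift2 s0 s1) := by
  intro w
  unfold lift2
  rw [flip_succ_zero, tail_flip_succ, h0, h1]

theorem layer_lift2 {k : ℕ} (j : Fin k) (s0 s1 : (Fin k → Bool) → Bool) (w : Fin (k + 1) → Bool) :
    layer j.succ (lift2 s0 s1) w
      = Fin.cons (w 0) (layer j (if w 0 then s1 else s0) (Fin.tail w)) := by
  unfold layer lift2
  ext i
  refine Fin.cases ?_ (fun i => ?_) i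
  · simp only [Fin.cons_zero]
    split_ifs <;> simp [flip_succ_zero]
  · simp only [Fin.cons_succ]
    cases w 0 <;> simp only [if_true, if_false, Bool.false_eq_true]
    · by_cases hs : s0 (Fin.tail w)
      · simp only [hs, if_true]; exact congrFun (tail_flip_succ j w) i
      · simp only [hs, if_false, Bool.false_eq_true]; rfl
    · by_cases hs : s1 (Fin.tail w)
      · simp only [hs, if_true]; exact congrFun (tail_flip_succ j w) i
      · simp only [hs, if_false, Bool.false_eq_true]; rfl

/-- combine two layer lists with the same bits. -/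
def liftL {k : ℕ} (L : List (Fin k × ((Fin k → Bool) → Bool) × ((Fin k → Bool) → Bool))) :
    List (Fin (k + 1) × ((Fin (k + 1) → Bool) → Bool)) :=
  L.map fun a => (a.1.succ, lift2 a.2.1 a.2.2)

theorem runL_liftL {k : ℕ} (L : List (Fin k × ((Fin k → Bool) → Bool) × ((Fin k → Bool) → Bool)))
    (w : Fin (k + 1) → Bool) :
    runL (liftL L) w = Fin.cons (w 0)
      (runL (L.map fun a => (a.1, if w 0 then a.2.2 else a.2.1)) (Fin.tail w)) := by
  induction L generalizing w with
  | nil => simp [liftL, runL]
  | cons a L ih =>
    change runL (liftL L) (layer a.1.succ (lift2 a.2.1 a.2.2) w) = _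
    rw [layer_lift2, ih]
    simp [runL]

/-- The main induction: every permutation is realised by valid layers on the bits `stages k`. -/
theorem exists_layers (k : ℕ) (p : Equiv.Perm (Fin k → Bool)) :
    ∃ L : List (Fin k × ((Fin k → Bool) → Bool)), L.map Prod.fst = stages k ∧
      (∀ a ∈ L, Valid a.1 a.2) ∧ ∀ w, runL L w = p w := by
  induction k with
  | zero =>
    refine ⟨[], rfl, by simp, fun w => ?_⟩
    exact Subsingleton.elim _ _
  | succ k ih =>
    classical
    -- the two involutions
    let α : Equiv.Perm (Fin (k + 1) → Bool) :=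
      ⟨flip 0, flip 0, fun w => flip_flip 0 w, fun w => flip_flip 0 w⟩
    have hα : ∀ w, α w = flip 0 w := fun w => rfl
    let β : Equiv.Perm (Fin (k + 1) → Bool) := p⁻¹ * α * p
    have hβ : ∀ w, β w = p⁻¹ (flip 0 (p w)) := fun w => rfl
    obtain ⟨f, hfα, hfβ⟩ := exists_two_coloring α β
      (fun x => by simp [hα]) (fun x => by rw [hα]; exact flip_ne 0 x)
      (fun x => by simp [hβ])
      (fun x => by
        rw [hβ]; intro h
        have := congrArg p h
        simp at this
        exact flip_ne 0 _ this)
    simp only [hα] at hfα
    -- the input of subnetwork b with tail u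
    let w0 : Bool → (Fin k → Bool) → (Fin (k + 1) → Bool) := fun b u =>
      if f (Fin.cons false u) = b then Fin.cons false u else Fin.cons true u
    have htrue : ∀ u : Fin k → Bool, (Fin.cons true u : Fin (k + 1) → Bool)
        = flip 0 (Fin.cons false u) := by
      intro u
      ext i
      refine Fin.cases ?_ (fun i => ?_) i
      · simp
      · rw [flip_of_ne (Fin.succ_ne_zero i)]; simp
    have hw0f : ∀ b u, f (w0 b u) = b := by
      intro b u
      simp only [w0]
      split_ifs with h
      · exact h
      · rw [htrue, hfα]; cases b <;> simpa using h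
    have hw0t : ∀ b u, Fin.tail (w0 b u) = u := by
      intro b u
      simp only [w0]
      split_ifs <;> simp
    have hw0u : ∀ w, w0 (f w) (Fin.tail w) = w := by
      intro w
      have hcases : w = Fin.cons false (Fin.tail w) ∨ w = Fin.cons true (Fin.tail w) := by
        cases h : w 0
        · left; rw [← h]; simp
        · right; rw [← h]; simp
      simp only [w0]
      rcases hcases with h | h
      · rw [← h]; simp
      · have h2 : f w = !f (Fin.cons false (Fin.tail w)) := by
          conv_lhs => rw [h]
          rw [htrue, hfα]
        rw [if_neg]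
        · exact h.symm
        · rw [h2]; simp
    let q : Bool → (Fin k → Bool) → (Fin k → Bool) := fun b u => Fin.tail (p (w0 b u))
    -- if two words have the same tail they are equal or related by flip 0
    have htl : ∀ v v' : Fin (k + 1) → Bool, Fin.tail v = Fin.tail v' → v = v' ∨ v = flip 0 v' := by
      intro v v' h
      by_cases h0 : v 0 = v' 0
      · left
        ext i
        refine Fin.cases h0 (fun i => ?_) i
        exact congrFun h i
      · right
        ext i
        refine Fin.cases ?_ (fun i => ?_) i
        · cases hv : v 0 <;> cases hv' : v' 0 <;> simp_all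
        · rw [flip_of_ne (Fin.succ_ne_zero i)]; exact congrFun h i
    have hqinj : ∀ b, Function.Injective (q b) := by
      intro b u u' h
      rcases htl _ _ h with h | h
      · have := p.injective h
        rw [← hw0t b u, ← hw0t b u', this]
      · exfalso
        have h2 : w0 b u = β (w0 b u') := by
          rw [hβ, ← h]; simp
        have h3 := congrArg f h2
        rw [hfβ, hw0f, hw0f] at h3
        cases b <;> simp at h3
    let Q : Bool → Equiv.Perm (Fin k → Bool) := fun b =>
      Equiv.ofBijective (q b) ((Finite.injective_iff_bijective).1 (hqinj b))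
    obtain ⟨L0, hL0s, hL0v, hL0r⟩ := ih (Q false)
    obtain ⟨L1, hL1s, hL1v, hL1r⟩ := ih (Q true)
    -- combine
    let M : List (Fin k × ((Fin k → Bool) → Bool) × ((Fin k → Bool) → Bool)) :=
      List.zipWith (fun a b => (a.1, a.2, b.2)) L0 L1
    have hlen : L0.length = L1.length := by
      have h1 := congrArg List.length hL0s
      have h2 := congrArg List.length hL1s
      simp only [List.length_map] at h1 h2
      omega
    have hMaux : ∀ (A B : List (Fin k × ((Fin k → Bool) → Bool))), A.length = B.length →
        A.map Prod.fst = B.map Prod.fst →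
        (List.zipWith (fun a b => (a.1, a.2, b.2)) A B).map (fun a => (a.1, a.2.1)) = A ∧
        (List.zipWith (fun a b => (a.1, a.2, b.2)) A B).map (fun a => (a.1, a.2.2)) = B := by
      intro A
      induction A with
      | nil => intro B hB _; cases B with
        | nil => simp
        | cons => simp at hB
      | cons a A ihA => intro B hB hm; cases B with
        | nil => simp at hB
        | cons b B =>
          simp only [List.map_cons, List.cons.injEq] at hm
          obtain ⟨h1, h2⟩ := ihA B (by simpa using hB) hm.2
          simp only [List.zipWith_cons_cons, List.map_cons, h1, h2, List.cons.injEq, and_true]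
          refine ⟨trivial, ?_⟩
          rw [hm.1]
    obtain ⟨hM0, hM1⟩ := hMaux L0 L1 hlen (by rw [hL0s, hL1s])
    refine ⟨(0, fun w => xor (w 0) (f w)) ::
      (liftL M ++ [(0, fun v => xor (v 0) (f (p⁻¹ v)))]), ?_, ?_, ?_⟩
    · simp only [List.map_cons, List.map_append, List.map_nil, stages, List.cons.injEq, true_and]
      congr 1
      have h1 : (liftL M).map Prod.fst = (M.map (fun a => (a.1, a.2.1))).map (fun a => a.1.succ) := by
        simp [liftL, Function.comp_def]
      change (liftL M).map Prod.fst = _
      rw [h1]
      change ((List.zipWith (fun a b => (a.1, a.2, b.2)) L0 L1).map (fun a => (a.1, a.2.1))).map _ = _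
      rw [hM0, ← hL0s]
      simp [Function.comp_def]
    · intro a ha
      simp only [List.mem_cons, List.mem_append, List.not_mem_nil, or_false] at ha
      rcases ha with rfl | ha | rfl
      · intro w
        simp only [flip_self, hfα]
        cases w 0 <;> cases f w <;> rfl
      · simp only [liftL, List.mem_map] at ha
        obtain ⟨m, hm, rfl⟩ := ha
        apply lift2_valid
        · have : (m.1, m.2.1) ∈ M.map (fun a => (a.1, a.2.1)) := List.mem_map_of_mem hm
          rw [show M.map (fun a => (a.1, a.2.1)) = L0 from hM0] at this
          exact hL0v _ this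
        · have : (m.1, m.2.2) ∈ M.map (fun a => (a.1, a.2.2)) := List.mem_map_of_mem hm
          rw [show M.map (fun a => (a.1, a.2.2)) = L1 from hM1] at this
          exact hL1v _ this
      · intro v
        have h1 : f (p⁻¹ (flip 0 v)) = !f (p⁻¹ v) := by
          have := hfβ (p⁻¹ v)
          rw [hβ] at this
          simpa using this
        simp only [flip_self, h1]
        cases v 0 <;> cases f (p⁻¹ v) <;> rfl
    · intro w
      -- after the first layer
      have hfirst : layer 0 (fun w => xor (w 0) (f w)) w = Fin.cons (f w) (Fin.tail w) := by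
        unfold layer
        ext i
        refine Fin.cases ?_ (fun i => ?_) i
        · simp only [Fin.cons_zero]
          by_cases hs : (w 0 ^^ f w) = true
          · rw [if_pos hs, flip_self]
            revert hs; cases w 0 <;> cases f w <;> simp
          · rw [if_neg hs]
            revert hs; cases w 0 <;> cases f w <;> simp
        · simp only [Fin.cons_succ]
          split_ifs
          · rw [flip_of_ne (Fin.succ_ne_zero i)]; rfl
          · rfl
      change runL (liftL M ++ _) (layer 0 (fun w => xor (w 0) (f w)) w) = p w
      rw [hfirst, runL_append, runL_liftL]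
      have hmid : runL (M.map fun a => (a.1, if (Fin.cons (f w) (Fin.tail w) : Fin (k+1) → Bool) 0
            then a.2.2 else a.2.1)) (Fin.tail (Fin.cons (f w) (Fin.tail w) : Fin (k+1) → Bool))
          = Fin.tail (p w) := by
        rw [Fin.tail_cons, Fin.cons_zero]
        have hq : ∀ b, b = f w → Q b (Fin.tail w) = Fin.tail (p w) := by
          intro b hb
          change Fin.tail (p (w0 b (Fin.tail w))) = _
          rw [hb, hw0u]
        cases hb : f w
        · simp only [Bool.false_eq_true, if_false]
          rw [show M.map (fun a => (a.1, a.2.1)) = L0 from hM0, hL0r]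
          exact hq false hb.symm
        · simp only [if_true]
          rw [show M.map (fun a => (a.1, a.2.2)) = L1 from hM1, hL1r]
          exact hq true hb.symm
      rw [hmid]
      simp only [runL, Fin.cons_zero]
      -- last layer
      set v := p w with hv
      have hg : f w = f (p⁻¹ v) := by rw [hv]; simp
      have h1 : ∀ u : Fin (k + 1) → Bool, f (p⁻¹ (flip 0 u)) = !f (p⁻¹ u) := by
        intro u
        have := hfβ (p⁻¹ u)
        rw [hβ] at this
        simpa using this
      rw [hg]
      by_cases hc : f (p⁻¹ v) = v 0
      · have h2 : (Fin.cons (f (p⁻¹ v)) (Fin.tail v) : Fin (k + 1) → Bool) = v := by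
          rw [hc]; simp
        rw [h2]
        unfold layer
        rw [if_neg]
        change ¬ ((v 0 ^^ f (p⁻¹ v)) = true)
        rw [hc]; simp
      · have h2 : (Fin.cons (f (p⁻¹ v)) (Fin.tail v) : Fin (k + 1) → Bool) = flip 0 v := by
          ext i
          refine Fin.cases ?_ (fun i => ?_) i
          · simp only [Fin.cons_zero, flip_self]
            cases h3 : v 0 <;> cases h4 : f (p⁻¹ v) <;> simp_all
          · rw [flip_of_ne (Fin.succ_ne_zero i)]; simp [Fin.tail]
        rw [h2]
        unfold layer
        rw [if_pos, flip_flip]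
        change (flip 0 v 0 ^^ f (p⁻¹ (flip 0 v))) = true
        rw [h1, flip_self]
        cases h3 : v 0 <;> cases h4 : f (p⁻¹ v) <;> simp_all

theorem stages_getElem (k t : ℕ) (h : t < (stages k).length) :
    ((stages k)[t] : ℕ) = bitAt k t := by
  induction k generalizing t with
  | zero => simp [stages] at h
  | succ k ih =>
    rw [stages_length] at h
    simp only [stages]
    rcases t with _ | t
    · simp [bitAt]
    · rw [List.getElem_cons_succ]
      by_cases ht : t < 2 * k
      · rw [List.getElem_append_left (by simp [stages_length, ht]), List.getElem_map, Fin.val_succ,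
          ih]
        unfold bitAt
        split_ifs <;> omega
      · have : t = 2 * k := by omega
        subst this
        rw [List.getElem_append_right (by simp [stages_length])]
        simp only [List.getElem_singleton, Fin.val_zero]
        unfold bitAt
        split_ifs <;> omega

/-- The position after `t` layers. -/
def pos {k : ℕ} (b : ℕ → Fin k) (s : ℕ → (Fin k → Bool) → Bool) (w : Fin k → Bool) :
    ℕ → (Fin k → Bool)
  | 0 => w
  | t + 1 => layer (b t) (s t) (pos b s w t)

/-- **Benes network.**  For every permutation `p` of the `2^k` wires there are `2k` layers of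
switches, layer `t` on bit `bitAt k t` (any `b` with these values), which realise `p`. -/
theorem benes (k : ℕ) (b : ℕ → Fin k) (hb : ∀ t < 2 * k, (b t : ℕ) = bitAt k t)
    (p : Equiv.Perm (Fin k → Bool)) :
    ∃ s : ℕ → (Fin k → Bool) → Bool, (∀ t, Valid (b t) (s t)) ∧
      ∀ w, pos b s w (2 * k) = p w := by
  obtain ⟨L, hLs, hLv, hLr⟩ := exists_layers k p
  have hlen : L.length = 2 * k := by
    have := congrArg List.length hLs
    simpa [stages_length] using this
  have hbit : ∀ t (h : t < L.length), (L[t]).1 = b t := by
    intro t h
    apply Fin.ext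
    rw [hb t (by omega), ← stages_getElem k t (by rw [stages_length]; omega)]
    simp only [← hLs, List.getElem_map]
  refine ⟨fun t => if h : t < L.length then (L[t]).2 else fun _ => false, ?_, ?_⟩
  · intro t
    by_cases h : t < L.length
    · simp only [h, dif_pos]
      rw [← hbit t h]
      exact hLv _ (List.getElem_mem h)
    · simp only [h, dif_neg, not_false_iff]
      intro w; rfl
  · intro w
    rw [← hLr w, ← hlen]
    have key : ∀ t, t ≤ L.length → pos b (fun t => if h : t < L.length then (L[t]).2
        else fun _ => false) w t = runL (L.take t) w := by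
      intro t
      induction t with
      | zero => intro _; simp [pos, runL]
      | succ t ih =>
        intro ht
        have ht' : t < L.length := ht
        rw [List.take_succ_eq_append_getElem ht', runL_append, ← ih ht'.le]
        simp only [pos, runL, ht', dif_pos, hbit t ht']
    rw [key L.length le_rfl, List.take_length]

end HWM.Benes
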