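import Mathlib

/-!
# Benes networks (rearrangeable networks)

Positions are bit strings `Fin k -> Bool`. A stage on bit `j` with control `c` swaps `p` with
`flipBit j p` when `c p` is true (`c` is invariant under `flipBit j`). Every permutation is a
composition of the `2 k` stages on bits `0, 1, .., k-1, k-1, .., 1, 0`.
-/

namespace Pool.Agent.HWM.BenesB

/-- Two fixed point free involutions have a common proper 2-colouring (looping lemma). -/
theorem exists_coloring {X : Type*} (a b : X → X) (ha : ∀ x, a (a x) = x)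
    (hb : ∀ x, b (b x) = x) (ha' : ∀ x, a x ≠ x) (hb' : ∀ x, b x ≠ x) :
    ∃ χ : X → Bool, (∀ x, χ (a x) = !χ x) ∧ ∀ x, χ (b x) = !χ x := by
  classical
  let A : Equiv.Perm X := ⟨a, a, ha, ha⟩
  let B : Equiv.Perm X := ⟨b, b, hb, hb⟩
  let π : Equiv.Perm X := A * B
  have hAA : A * A = 1 := Equiv.ext fun x => ha x
  have hBB : B * B = 1 := Equiv.ext fun x => hb x
  have hAinv : A⁻¹ = A := inv_eq_of_mul_eq_one_left hAA
  have hBinv : B⁻¹ = B := inv_eq_of_mul_eq_one_left hBB
  have hconj : A * π * A⁻¹ = π⁻¹ := by
    rw [hAinv]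
    change A * (A * B) * A = (A * B)⁻¹
    rw [mul_inv_rev, hAinv, hBinv, ← mul_assoc, hAA, one_mul]
  have hz : ∀ n : ℤ, A * π ^ n = π ^ (-n) * A := by
    intro n
    have h1 : A * π ^ n * A⁻¹ = π ^ (-n) := by
      rw [← conj_zpow, hconj, inv_zpow, zpow_neg]
    rw [← h1]
    group
  have hzx : ∀ (n : ℤ) (x : X), a ((π ^ n) x) = (π ^ (-n)) (a x) := fun n x => by
    change (A * π ^ n) x = (π ^ (-n) * A) x
    rw [hz n]
  have hbx : ∀ x, b x = a (π x) := fun x => by
    change b x = a (a (b x))
    rw [ha]
  have hnot : ∀ x, ¬ π.SameCycle x (a x) := by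
    rintro x ⟨i, hi⟩
    obtain ⟨j, hj | hj⟩ := Int.even_or_odd' i
    · apply ha' ((π ^ j) x)
      rw [hzx, ← hi, ← Equiv.Perm.mul_apply, ← zpow_add, hj]
      congr 2
      ring
    · apply hb' ((π ^ j) x)
      rw [hbx]
      have h1 : π ((π ^ j) x) = (π ^ (j + 1)) x := by
        rw [add_comm, zpow_add, zpow_one]
        rfl
      rw [h1, hzx, ← hi, ← Equiv.Perm.mul_apply, ← zpow_add, hj]
      congr 2
      ring
  let S : Setoid X := Equiv.Perm.SameCycle.setoid π
  have hA : ∀ x y, π.SameCycle x y → π.SameCycle (a x) (a y) := by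
    rintro x y ⟨i, hi⟩
    exact ⟨-i, by rw [← hi, hzx]⟩
  let Aq : Quotient S → Quotient S := Quotient.map a (fun x y h => hA x y h)
  have hAq : ∀ q, Aq (Aq q) = q := by
    intro q
    induction q using Quotient.inductionOn with
    | _ x => exact congrArg _ (ha x)
  have hAq' : ∀ q, Aq q ≠ q := by
    intro q
    induction q using Quotient.inductionOn with
    | _ x =>
      intro h
      exact hnot x (Quotient.exact h).symm
  let χq : Quotient S → Bool := fun q => decide (WellOrderingRel q (Aq q))
  have hχq : ∀ q, χq (Aq q) = !χq q := by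
    intro q
    change decide (WellOrderingRel (Aq q) (Aq (Aq q))) = !decide (WellOrderingRel q (Aq q))
    rw [hAq]
    rcases trichotomous_of (WellOrderingRel (α := Quotient S)) q (Aq q) with h | h | h
    · have h' : ¬ WellOrderingRel (Aq q) q := asymm_of WellOrderingRel h
      simp [h, h']
    · exact absurd h.symm (hAq' q)
    · have h' : ¬ WellOrderingRel q (Aq q) := asymm_of WellOrderingRel h
      simp [h, h']
  refine ⟨fun x => χq (Quotient.mk S x), fun x => hχq (Quotient.mk S x), fun x => ?_⟩
  have h1 : Quotient.mk S (b x) = Aq (Quotient.mk S x) := by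
    rw [hbx]
    have h2 : Quotient.mk S (π x) = Quotient.mk S x := by
      apply Quotient.sound
      exact ⟨-1, by simp⟩
    change Aq (Quotient.mk S (π x)) = _
    rw [h2]
  change χq (Quotient.mk S (b x)) = !χq (Quotient.mk S x)
  rw [h1, hχq]

/-- Flip bit `j` of a position. -/
def flipBit {k : ℕ} (j : Fin k) (p : Fin k → Bool) : Fin k → Bool :=
  Function.update p j (!p j)

theorem flipBit_flipBit {k : ℕ} (j : Fin k) (p : Fin k → Bool) :
    flipBit j (flipBit j p) = p := by
  ext i
  by_cases h : i = j
  · subst h; simp [flipBit]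
  · simp [flipBit, h]

theorem flipBit_ne {k : ℕ} (j : Fin k) (p : Fin k → Bool) : flipBit j p ≠ p := by
  intro h
  have := congrFun h j
  simp [flipBit] at this

/-- The conditional swap on bit `j`. -/
def stage {k : ℕ} (j : Fin k) (c : (Fin k → Bool) → Bool) (p : Fin k → Bool) : Fin k → Bool :=
  if c p = true then flipBit j p else p

/-- A control is legal when both positions of a switch carry the same bit. -/
def Ok {k : ℕ} (j : Fin k) (c : (Fin k → Bool) → Bool) : Prop := ∀ p, c (flipBit j p) = c p

theorem stage_stage {k : ℕ} {j : Fin k} {c : (Fin k → Bool) → Bool} (h : Ok j c)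
    (p : Fin k → Bool) : stage j c (stage j c p) = p := by
  unfold stage
  by_cases hc : c p = true
  · simp [hc, h p, flipBit_flipBit]
  · simp [hc]

/-- The bit acted on at time `s` : `0, 1, .., k-1, k-1, .., 1, 0`. -/
def bitAt (k : ℕ) (s : Fin (2 * k)) : Fin k :=
  if h : (s : ℕ) < k then ⟨s, h⟩ else ⟨2 * k - 1 - s, by omega⟩

/-- The position reached after the first `s` stages. -/
def route {k : ℕ} (c : Fin (2 * k) → (Fin k → Bool) → Bool) : ℕ → (Fin k → Bool) → (Fin k → Bool)
  | 0, p => p
  | s + 1, p => if h : s < 2 * k then stage (bitAt k ⟨s, h⟩) (c ⟨s, h⟩) (route c s p)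
      else route c s p

/-- With legal controls every prefix of the network is a bijection. -/
theorem route_injective {k : ℕ} {c : Fin (2 * k) → (Fin k → Bool) → Bool}
    (h : ∀ s, Ok (bitAt k s) (c s)) (s : ℕ) : Function.Injective (route c s) := by
  induction s with
  | zero => intro p q hpq; exact hpq
  | succ s ih =>
    intro p q hpq
    apply ih
    by_cases hs : s < 2 * k
    · simp only [route, hs, dif_pos] at hpq
      have := congrArg (stage (bitAt k ⟨s, hs⟩) (c ⟨s, hs⟩)) hpq
      rwa [stage_stage (h _), stage_stage (h _)] at this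
    · simpa [route, hs] using hpq

theorem route_bijective {k : ℕ} {c : Fin (2 * k) → (Fin k → Bool) → Bool}
    (h : ∀ s, Ok (bitAt k s) (c s)) (s : ℕ) : Function.Bijective (route c s) :=
  Finite.injective_iff_bijective.mp (route_injective h s)

theorem cons_tail {k : ℕ} (p : Fin (k + 1) → Bool) : Fin.cons (p 0) (Fin.tail p) = p :=
  Fin.cons_self_tail p

theorem flipBit_zero {k : ℕ} (x : Bool) (t : Fin k → Bool) :
    flipBit (0 : Fin (k + 1)) (Fin.cons x t) = (Fin.cons (!x) t : Fin (k + 1) → Bool) := by
  simp [flipBit, Fin.update_cons_zero]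

theorem flipBit_zero' {k : ℕ} (p : Fin (k + 1) → Bool) :
    flipBit (0 : Fin (k + 1)) p = (Fin.cons (!p 0) (Fin.tail p) : Fin (k + 1) → Bool) := by
  conv_lhs => rw [← cons_tail p]
  rw [flipBit_zero]

theorem flipBit_succ {k : ℕ} (j : Fin k) (x : Bool) (t : Fin k → Bool) :
    flipBit j.succ (Fin.cons x t : Fin (k + 1) → Bool) = Fin.cons x (flipBit j t) := by
  simp [flipBit, Fin.cons_update]

/-- One recursion step: two outer stages on bit `0` and two inner permutations. -/
theorem split {k : ℕ} (σ : Equiv.Perm (Fin (k + 1) → Bool)) :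
    ∃ (α β : (Fin (k + 1) → Bool) → Bool) (τ : Bool → Equiv.Perm (Fin k → Bool)),
      Ok 0 α ∧ Ok 0 β ∧
      ∀ p, stage 0 β (Fin.cons (stage 0 α p 0) (τ (stage 0 α p 0) (Fin.tail (stage 0 α p)))) =
        σ p := by
  classical
  obtain ⟨χ, h1, h2⟩ := exists_coloring (fun p : Fin (k + 1) → Bool => flipBit 0 p)
    (fun p => σ.symm (flipBit 0 (σ p))) (fun p => flipBit_flipBit 0 p)
    (fun p => by simp [flipBit_flipBit]) (fun p => flipBit_ne 0 p)
    (fun p h => flipBit_ne 0 (σ p) (by simpa [Equiv.symm_apply_eq] using h))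
  -- the point with given tail and colour
  let pt : Bool → (Fin k → Bool) → (Fin (k + 1) → Bool) := fun x t =>
    if χ (Fin.cons false t) = x then Fin.cons false t else Fin.cons true t
  have hcf : ∀ t : Fin k → Bool, χ (Fin.cons true t) = !χ (Fin.cons false t) := by
    intro t
    have := h1 (Fin.cons false t)
    simpa [flipBit_zero] using this
  have hpt1 : ∀ x t, χ (pt x t) = x := by
    intro x t
    by_cases h : χ (Fin.cons false t) = x
    · simp [pt, h]
    · simp only [pt, h, if_false, hcf]
      revert h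
      cases χ (Fin.cons false t) <;> cases x <;> simp
  have hpt2 : ∀ x t, Fin.tail (pt x t) = t := by
    intro x t
    by_cases h : χ (Fin.cons false t) = x <;> simp [pt, h]
  have huniq : ∀ p q : Fin (k + 1) → Bool, Fin.tail p = Fin.tail q → χ p = χ q → p = q := by
    intro p q h3 h4
    by_contra hne
    have h5 : q = flipBit 0 p := by
      rw [flipBit_zero', h3, ← cons_tail q]
      have h6 : p 0 ≠ q 0 := by
        intro h7
        apply hne
        rw [← cons_tail p, ← cons_tail q, h3, h7]
      have h7 : (!p 0) = q 0 := by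
        revert h6
        cases p 0 <;> cases q 0 <;> simp
      simp [h7]
    rw [h5, h1] at h4
    revert h4
    cases χ p <;> simp
  have hpt3 : ∀ p, pt (χ p) (Fin.tail p) = p := fun p => huniq _ _ (hpt2 _ _) (hpt1 _ _)
  have huniq2 : ∀ p q : Fin (k + 1) → Bool, Fin.tail (σ p) = Fin.tail (σ q) → χ p = χ q →
      p = q := by
    intro p q h3 h4
    by_contra hne
    have hne' : σ p ≠ σ q := fun h => hne (σ.injective h)
    have h5 : σ q = flipBit 0 (σ p) := by
      rw [flipBit_zero', h3, ← cons_tail (σ q)]
      have h6 : σ p 0 ≠ σ q 0 := by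
        intro h7
        apply hne'
        rw [← cons_tail (σ p), ← cons_tail (σ q), h3, h7]
      have h7 : (!σ p 0) = σ q 0 := by
        revert h6
        cases σ p 0 <;> cases σ q 0 <;> simp
      simp [h7]
    have h6 : q = σ.symm (flipBit 0 (σ p)) := by rw [← h5]; simp
    have h7 := h2 p
    rw [← h6, ← h4] at h7
    revert h7
    cases χ p <;> simp
  have hτ : ∀ x, Function.Injective (fun t => Fin.tail (σ (pt x t))) := by
    intro x t t' h
    have := huniq2 _ _ h (by rw [hpt1, hpt1])
    rw [← hpt2 x t, ← hpt2 x t', this]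
  let τ : Bool → Equiv.Perm (Fin k → Bool) := fun x =>
    Equiv.ofBijective _ (Finite.injective_iff_bijective.mp (hτ x))
  have hxor : ∀ x y : Bool, xor (!x) (!y) = xor x y := by decide
  refine ⟨fun p => xor (p 0) (χ p), fun q => xor (q 0) (χ (σ.symm q)), τ, ?_, ?_, ?_⟩
  · intro p
    have h3 : flipBit 0 p 0 = !p 0 := by simp [flipBit]
    simp only [h3, h1]
    exact hxor _ _
  · intro q
    have h3 : flipBit 0 q 0 = !q 0 := by simp [flipBit]
    have h4 := h2 (σ.symm q)
    simp only [Equiv.apply_symm_apply] at h4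
    simp only [h3, h4]
    exact hxor _ _
  · intro p
    have h3 : stage 0 (fun p => xor (p 0) (χ p)) p = Fin.cons (χ p) (Fin.tail p) := by
      change (if xor (p 0) (χ p) = true then flipBit 0 p else p) = _
      by_cases h : p 0 = χ p
      · have h4 : xor (p 0) (χ p) = false := by rw [h]; cases χ p <;> rfl
        rw [h4, ← h, cons_tail]
        simp
      · have h4 : xor (p 0) (χ p) = true := by
          revert h
          cases p 0 <;> cases χ p <;> simp
        have h5 : (!p 0) = χ p := by
          revert h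
          cases p 0 <;> cases χ p <;> simp
        rw [h4, if_pos rfl, flipBit_zero', h5]
    rw [h3]
    have h4 : (Fin.cons (χ p) (Fin.tail p) : Fin (k + 1) → Bool) 0 = χ p := rfl
    have h5 : Fin.tail (Fin.cons (χ p) (Fin.tail p) : Fin (k + 1) → Bool) = Fin.tail p :=
      Fin.tail_cons _ _
    rw [h4, h5]
    have h6 : τ (χ p) (Fin.tail p) = Fin.tail (σ p) := by
      change Fin.tail (σ (pt (χ p) (Fin.tail p))) = _
      rw [hpt3]
    rw [h6]
    by_cases h : σ p 0 = χ p
    · rw [← h, cons_tail]
      change (if xor (σ p 0) (χ (σ.symm (σ p))) = true then flipBit 0 (σ p) else σ p) = _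
      have h7 : xor (σ p 0) (χ (σ.symm (σ p))) = false := by
        rw [Equiv.symm_apply_apply, h]; cases χ p <;> rfl
      rw [h7]
      simp
    · have h7 : (!σ p 0) = χ p := by
        revert h
        cases σ p 0 <;> cases χ p <;> simp
      have h8 : (Fin.cons (χ p) (Fin.tail (σ p)) : Fin (k + 1) → Bool) = flipBit 0 (σ p) := by
        rw [flipBit_zero', h7]
      have h9 := h2 p
      rw [h8]
      change (if xor (flipBit 0 (σ p) 0) (χ (σ.symm (flipBit 0 (σ p)))) = true then
        flipBit 0 (flipBit 0 (σ p)) else flipBit 0 (σ p)) = _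
      rw [h9]
      have h10 : flipBit 0 (σ p) 0 = χ p := by
        rw [← h8]
        rfl
      rw [h10]
      have h11 : xor (χ p) (!χ p) = true := by cases χ p <;> rfl
      rw [h11, if_pos rfl, flipBit_flipBit]

/-- Every permutation of the `2 ^ k` positions is realised by `2 k` stages. -/
theorem benes (k : ℕ) (σ : Equiv.Perm (Fin k → Bool)) :
    ∃ c : Fin (2 * k) → (Fin k → Bool) → Bool, (∀ s, Ok (bitAt k s) (c s)) ∧
      ∀ p, route c (2 * k) p = σ p := by
  induction k with
  | zero =>
    refine ⟨fun _ _ => false, fun s => absurd s.2 (by omega), fun p => ?_⟩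
    exact Subsingleton.elim _ _
  | succ k ih =>
    obtain ⟨α, β, τ, hα, hβ, hσ⟩ := split σ
    choose d hd1 hd2 using fun x => ih (τ x)
    let c : Fin (2 * (k + 1)) → (Fin (k + 1) → Bool) → Bool := fun s p =>
      if (s : ℕ) = 0 then α p else
        if h : (s : ℕ) - 1 < 2 * k then d (p 0) ⟨(s : ℕ) - 1, h⟩ (Fin.tail p) else β p
    have hbit0 : ∀ (s : Fin (2 * (k + 1))), (s : ℕ) = 0 → bitAt (k + 1) s = 0 := by
      intro s hs
      unfold bitAt
      rw [dif_pos (by omega)]
      exact Fin.ext (by simpa using hs)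
    have hbit1 : ∀ (s : Fin (2 * (k + 1))) (h0 : ¬ (s : ℕ) = 0) (h : (s : ℕ) - 1 < 2 * k),
        bitAt (k + 1) s = (bitAt k ⟨(s : ℕ) - 1, h⟩).succ := by
      intro s h0 h
      unfold bitAt
      by_cases hs : (s : ℕ) < k + 1
      · rw [dif_pos hs, dif_pos (by simp only; omega)]
        exact Fin.ext (by simp only [Fin.val_succ]; omega)
      · rw [dif_neg hs, dif_neg (by simp only; omega)]
        exact Fin.ext (by simp only [Fin.val_succ]; omega)
    have hbit2 : ∀ (s : Fin (2 * (k + 1))), ¬ (s : ℕ) = 0 → ¬ (s : ℕ) - 1 < 2 * k →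
        bitAt (k + 1) s = 0 := by
      intro s h0 h
      have := s.2
      unfold bitAt
      rw [dif_neg (by omega)]
      exact Fin.ext (by simp only [Fin.val_zero]; omega)
    refine ⟨c, ?_, ?_⟩
    · intro s
      by_cases h0 : (s : ℕ) = 0
      · rw [hbit0 s h0]
        intro p
        simp only [c, h0, if_pos]
        exact hα p
      · by_cases h : (s : ℕ) - 1 < 2 * k
        · rw [hbit1 s h0 h]
          intro p
          obtain ⟨x, t, rfl⟩ : ∃ x t, p = (Fin.cons x t : Fin (k + 1) → Bool) :=
            ⟨p 0, Fin.tail p, (cons_tail p).symm⟩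
          rw [flipBit_succ]
          simp only [c, h0, h, if_neg, dif_pos, not_false_eq_true, Fin.cons_zero, Fin.tail_cons]
          exact hd1 x _ t
        · rw [hbit2 s h0 h]
          intro p
          simp only [c, h0, h, if_neg, dif_neg, not_false_eq_true]
          exact hβ p
    · intro p
      set q := stage 0 α p with hq
      have key : ∀ j, j ≤ 2 * k →
          route c (j + 1) p = Fin.cons (q 0) (route (d (q 0)) j (Fin.tail q)) := by
        intro j
        induction j with
        | zero =>
          intro _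
          have h0 : 0 < 2 * (k + 1) := by omega
          simp only [route, h0, dif_pos]
          rw [hbit0 ⟨0, h0⟩ rfl, cons_tail]
          rfl
        | succ j ihj =>
          intro hj
          have h1 : j + 1 < 2 * (k + 1) := by omega
          have h2 : j < 2 * k := by omega
          have e1 : route c (j + 1 + 1) p =
              stage (bitAt (k + 1) ⟨j + 1, h1⟩) (c ⟨j + 1, h1⟩) (route c (j + 1) p) := by
            rw [route, dif_pos h1]
          have e2 : route (d (q 0)) (j + 1) (Fin.tail q) =
              stage (bitAt k ⟨j, h2⟩) (d (q 0) ⟨j, h2⟩) (route (d (q 0)) j (Fin.tail q)) := by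
            rw [route, dif_pos h2]
          have e3 : bitAt (k + 1) ⟨j + 1, h1⟩ = (bitAt k ⟨j, h2⟩).succ :=
            hbit1 ⟨j + 1, h1⟩ (by simp) (by simpa using h2)
          rw [e1, ihj (by omega), e2, e3]
          generalize route (d (q 0)) j (Fin.tail q) = t
          have e4 : c ⟨j + 1, h1⟩ (Fin.cons (q 0) t) = d (q 0) ⟨j, h2⟩ t := by
            simp [c, h2]
          unfold stage
          rw [e4]
          by_cases h5 : d (q 0) ⟨j, h2⟩ t = true
          · rw [if_pos h5, if_pos h5, flipBit_succ]
          · rw [if_neg h5, if_neg h5]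
      have h1 : 2 * k + 1 < 2 * (k + 1) := by omega
      have e1 : route c (2 * (k + 1)) p =
          stage (bitAt (k + 1) ⟨2 * k + 1, h1⟩) (c ⟨2 * k + 1, h1⟩) (route c (2 * k + 1) p) := by
        change route c (2 * k + 1 + 1) p = _
        rw [route, dif_pos h1]
      have e2 : c ⟨2 * k + 1, h1⟩ = β := by
        funext r
        simp [c]
      rw [e1, key _ le_rfl, hd2, hbit2 ⟨2 * k + 1, h1⟩ (by simp) (by simp), e2]
      exact hσ p

end Pool.Agent.HWM.BenesB
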