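import Pool.Agent.HWM.BenesB

/-!
# Selection networks

`5 k` stages of free selections (`X_(s+1) p = if c_s p then X_s (flip p) else X_s p`) realise every
function `f` on the `2 ^ k` positions: `X_(5 k) i = X_0 (f i)`, for a suitable choice of the
selection bits `c` (`2 k` Benes stages, `k` butterfly stages, `2 k` Benes stages).
-/

namespace Pool.Agent.HWM.BenesB

/-- Every function on `Fin N` is (permutation) o (slow function) o (permutation). -/
theorem slow_decomposition (N : ℕ) (g : Fin N → Fin N) :
    ∃ (a b : Equiv.Perm (Fin N)) (h : Fin N → Fin N), (∀ i, g i = b (h (a i))) ∧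
      ∀ r r', r ≤ r' → (h r : ℕ) ≤ h r' ∧ (h r' : ℕ) - h r ≤ (r' : ℕ) - r := by
  classical
  let π : Equiv.Perm (Fin N) := Tuple.sort g
  let G : Fin N → Fin N := fun r => g (π r)
  have hG : Monotone G := Tuple.monotone_sort g
  let V : Finset (Fin N) := Finset.univ.image G
  let rk : Fin N → ℕ := fun v => (V.filter (· < v)).card
  have hrk : ∀ v : Fin N, rk v < N := by
    intro v
    have h1 : V.filter (· < v) ⊆ Finset.univ.erase v := by
      intro x hx
      simp only [Finset.mem_filter] at hx
      simp only [Finset.mem_erase, Finset.mem_univ, and_true]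
      exact ne_of_lt hx.2
    have h2 := Finset.card_le_card h1
    rw [Finset.card_erase_of_mem (Finset.mem_univ v), Finset.card_univ, Fintype.card_fin] at h2
    have := v.2
    have h3 : rk v ≤ N - 1 := h2
    omega
  have hmono : ∀ v w : Fin N, v ≤ w → rk v ≤ rk w := by
    intro v w hvw
    apply Finset.card_le_card
    intro x hx
    simp only [Finset.mem_filter] at hx ⊢
    exact ⟨hx.1, lt_of_lt_of_le hx.2 hvw⟩
  have hstrict : ∀ v w : Fin N, v ∈ V → v < w → rk v < rk w := by
    intro v w hv hvw
    apply Finset.card_lt_card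
    rw [Finset.ssubset_iff_of_subset]
    · exact ⟨v, by simp [hv, hvw], by simp⟩
    · intro x hx
      simp only [Finset.mem_filter] at hx ⊢
      exact ⟨hx.1, lt_trans hx.2 hvw⟩
  have hinj : ∀ v w : Fin N, v ∈ V → w ∈ V → rk v = rk w → v = w := by
    intro v w hv hw h
    rcases lt_trichotomy v w with h1 | h1 | h1
    · exact absurd h (ne_of_lt (hstrict v w hv h1))
    · exact h1
    · exact absurd h.symm (ne_of_lt (hstrict w v hw h1))
  let rk' : Fin N → Fin N := fun v => ⟨rk v, hrk v⟩
  -- the permutation extending `rank` on the used values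
  let E : {x // x ∈ V} ≃ {x // x ∈ V.image rk'} :=
    Equiv.ofBijective (fun x => ⟨rk' x, Finset.mem_image_of_mem rk' x.2⟩) (by
      constructor
      · intro x y hxy
        have h1 : rk' x = rk' y := congrArg Subtype.val hxy
        have h2 : rk x = rk y := congrArg Fin.val h1
        exact Subtype.ext (hinj x y x.2 y.2 h2)
      · rintro ⟨y, hy⟩
        obtain ⟨x, hx, rfl⟩ := Finset.mem_image.mp hy
        exact ⟨⟨x, hx⟩, rfl⟩)
  let e : Equiv.Perm (Fin N) := E.extendSubtype
  have he : ∀ v ∈ V, e v = rk' v := fun v hv =>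
    Equiv.extendSubtype_apply_of_mem E v hv
  refine ⟨π.symm, e.symm, fun r => rk' (G r), ?_, ?_⟩
  · intro i
    have h1 : G (π.symm i) = g i := by simp [G]
    have h2 : g i ∈ V := by
      rw [← h1]; exact Finset.mem_image_of_mem G (Finset.mem_univ _)
    change g i = e.symm (rk' (G (π.symm i)))
    rw [h1, ← he (g i) h2, Equiv.symm_apply_apply]
  · intro r r' hr
    refine ⟨hmono _ _ (hG hr), ?_⟩
    change rk (G r') - rk (G r) ≤ (r' : ℕ) - r
    have h1 : V.filter (· < G r') ⊆ V.filter (· < G r) ∪ (Finset.Ico r r').image G := by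
      intro x hx
      simp only [Finset.mem_filter, Finset.mem_union, Finset.mem_image, Finset.mem_Ico] at hx ⊢
      obtain ⟨hxV, hxr'⟩ := hx
      obtain ⟨s, -, rfl⟩ := Finset.mem_image.mp hxV
      by_cases h2 : G s < G r
      · exact Or.inl ⟨hxV, h2⟩
      · right
        have h3 : G r ≤ G s := not_lt.mp h2
        have h4 : s < r' := by
          by_contra h5
          exact absurd (hG (not_lt.mp h5)) (not_le.mpr hxr')
        by_cases h5 : r ≤ s
        · exact ⟨s, ⟨h5, h4⟩, rfl⟩
        · have h6 : s ≤ r := (not_le.mp h5).le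
          have h7 : G s = G r := le_antisymm (hG h6) h3
          refine ⟨r, ⟨le_rfl, ?_⟩, h7.symm⟩
          by_contra h8
          have h9 : r' ≤ r := not_lt.mp h8
          have h10 : r = r' := le_antisymm hr h9
          rw [h7, h10] at hxr'
          exact lt_irrefl _ hxr'
    have h2 := Finset.card_le_card h1
    have h3 := Finset.card_union_le (V.filter (· < G r)) ((Finset.Ico r r').image G)
    have h4 : ((Finset.Ico r r').image G).card ≤ (r' : ℕ) - r := by
      calc _ ≤ (Finset.Ico r r').card := Finset.card_image_le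
        _ = (r' : ℕ) - r := by simp
    have h5 : rk (G r') = (V.filter (· < G r')).card := rfl
    have h6 : rk (G r) = (V.filter (· < G r)).card := rfl
    omega

/-- The position obtained from `a` by replacing its bits below `j` by those of `b`. -/
def mix {k : ℕ} (j : ℕ) (a b : Fin k → Bool) : Fin k → Bool :=
  fun t => if (t : ℕ) < j then b t else a t

theorem mix_zero {k : ℕ} (a b : Fin k → Bool) : mix 0 a b = a := by
  funext t; simp [mix]

theorem mix_top {k : ℕ} (a b : Fin k → Bool) : mix k a b = b := by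
  funext t; simp [mix, t.2]

theorem mix_succ {k : ℕ} (j : ℕ) (hj : j < k) (a b : Fin k → Bool) :
    mix (j + 1) a b = Function.update (mix j a b) ⟨j, hj⟩ (b ⟨j, hj⟩) := by
  funext t
  by_cases h : t = ⟨j, hj⟩
  · subst h; simp [mix]
  · have h' : (t : ℕ) ≠ j := fun h1 => h (Fin.ext h1)
    rw [Function.update_of_ne h]
    unfold mix
    by_cases h1 : (t : ℕ) < j
    · rw [if_pos h1, if_pos (by omega)]
    · rw [if_neg h1, if_neg (by omega)]

/-- The enumeration of positions by their binary value. -/
noncomputable def enum (k : ℕ) : (Fin k → Bool) ≃ Fin (2 ^ k) :=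
  ⟨fun p => ⟨Nat.ofBits p, Nat.ofBits_lt_two_pow p⟩, fun n t => (n : ℕ).testBit t,
    fun p => by funext t; simp [Nat.testBit_ofBits_lt],
    fun n => by
      apply Fin.ext
      simp only [Nat.ofBits_testBit]
      exact Nat.mod_eq_of_lt n.2⟩

theorem enum_div {k j : ℕ} {p q : Fin k → Bool} (h : ∀ t : Fin k, j ≤ (t : ℕ) → p t = q t) :
    (enum k p : ℕ) / 2 ^ j = (enum k q : ℕ) / 2 ^ j := by
  apply Nat.eq_of_testBit_eq
  intro i
  rw [Nat.testBit_div_two_pow, Nat.testBit_div_two_pow]
  change (Nat.ofBits p).testBit _ = (Nat.ofBits q).testBit _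
  rw [Nat.testBit_ofBits, Nat.testBit_ofBits]
  by_cases h1 : i + j < k
  · rw [dif_pos h1, dif_pos h1]
    exact h _ (by simp)
  · rw [dif_neg h1, dif_neg h1]

theorem enum_mod {k j : ℕ} {p q : Fin k → Bool} (h : ∀ t : Fin k, (t : ℕ) < j → p t = q t) :
    (enum k p : ℕ) % 2 ^ j = (enum k q : ℕ) % 2 ^ j := by
  apply Nat.eq_of_testBit_eq
  intro i
  rw [Nat.testBit_mod_two_pow, Nat.testBit_mod_two_pow]
  change (decide (i < j) && (Nat.ofBits p).testBit _) = (decide (i < j) && (Nat.ofBits q).testBit _)
  rw [Nat.testBit_ofBits, Nat.testBit_ofBits]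
  by_cases h0 : i < j
  · by_cases h1 : i < k
    · rw [dif_pos h1, dif_pos h1, h ⟨i, h1⟩ h0]
    · rw [dif_neg h1, dif_neg h1]
  · simp [h0]

/-- A slow function causes no conflicts in the butterfly pass. -/
theorem mix_injective {k : ℕ} (h : (Fin k → Bool) → (Fin k → Bool))
    (hslow : ∀ p q, (enum k p : ℕ) ≤ enum k q → (enum k (h p) : ℕ) ≤ enum k (h q) ∧
      (enum k (h q) : ℕ) - enum k (h p) ≤ (enum k q : ℕ) - enum k p)
    (j : ℕ) (p q : Fin k → Bool) (hpq : mix j p (h p) = mix j q (h q)) : h p = h q := by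
  wlog hle : (enum k p : ℕ) ≤ enum k q generalizing p q
  · exact (this q p hpq.symm (not_le.mp hle).le).symm
  have h1 : ∀ t : Fin k, j ≤ (t : ℕ) → p t = q t := by
    intro t ht
    have := congrFun hpq t
    simpa [mix, not_lt.mpr ht] using this
  have h2 : ∀ t : Fin k, (t : ℕ) < j → h p t = h q t := by
    intro t ht
    have := congrFun hpq t
    simpa [mix, ht] using this
  have h3 := enum_div h1
  have h4 := enum_mod h2
  obtain ⟨h5, h6⟩ := hslow p q hle
  have h7 := Nat.div_add_mod (enum k p : ℕ) (2 ^ j)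
  have h8 := Nat.div_add_mod (enum k q : ℕ) (2 ^ j)
  have h9 := Nat.mod_lt (enum k q : ℕ) (Nat.two_pow_pos j)
  have h10 : (enum k (h q) : ℕ) - enum k (h p) < 2 ^ j := by
    rw [h3] at h7
    omega
  have h11 : (enum k (h p) : ℕ) = enum k (h q) := by
    have h12 : 2 ^ j ∣ (enum k (h q) : ℕ) - enum k (h p) :=
      (Nat.modEq_iff_dvd' h5).mp h4
    have h13 := Nat.eq_zero_of_dvd_of_lt h12 h10
    omega
  exact (enum k).injective (Fin.ext h11)

/-- The walk through free selections on the bits `b s`. -/
def walk {k : ℕ} (n : ℕ) (b : Fin n → Fin k) (c : Fin n → (Fin k → Bool) → Bool) :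
    ℕ → (Fin k → Bool) → (Fin k → Bool)
  | 0, p => p
  | s + 1, p => if h : s < n then stage (b ⟨s, h⟩) (c ⟨s, h⟩) (walk n b c s p)
      else walk n b c s p

/-- The butterfly pass realises every slow function. -/
theorem butterfly {k : ℕ} (h : (Fin k → Bool) → (Fin k → Bool))
    (hslow : ∀ p q, (enum k p : ℕ) ≤ enum k q → (enum k (h p) : ℕ) ≤ enum k (h q) ∧
      (enum k (h q) : ℕ) - enum k (h p) ≤ (enum k q : ℕ) - enum k p) :
    ∃ c : Fin k → (Fin k → Bool) → Bool, ∀ p, walk k id c k p = h p := by
  classical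
  let c : Fin k → (Fin k → Bool) → Bool := fun j x =>
    if H : ∃ p, mix j p (h p) = x then xor (x j) (h H.choose j) else false
  refine ⟨c, fun p => ?_⟩
  have key : ∀ j, j ≤ k → walk k id c j p = mix j p (h p) := by
    intro j
    induction j with
    | zero => intro _; rw [mix_zero]; rfl
    | succ j ih =>
      intro hj
      have hj' : j < k := hj
      rw [walk, dif_pos hj', ih (by omega), mix_succ j hj']
      have H : ∃ q, mix ((⟨j, hj'⟩ : Fin k) : ℕ) q (h q) = mix j p (h p) := ⟨p, rfl⟩
      have h1 : h H.choose = h p := mix_injective h hslow j _ _ H.choose_spec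
      have h2 : c ⟨j, hj'⟩ (mix j p (h p)) = xor (mix j p (h p) ⟨j, hj'⟩) (h p ⟨j, hj'⟩) := by
        simp only [c]
        rw [dif_pos H, h1]
      change stage ⟨j, hj'⟩ (c ⟨j, hj'⟩) (mix j p (h p)) = _
      unfold stage
      rw [h2]
      by_cases h3 : mix j p (h p) ⟨j, hj'⟩ = h p ⟨j, hj'⟩
      · rw [if_neg (by rw [h3]; simp), ← h3, Function.update_eq_self]
      · have h4 : (!mix j p (h p) ⟨j, hj'⟩) = h p ⟨j, hj'⟩ := by
          revert h3
          cases mix j p (h p) ⟨j, hj'⟩ <;> cases h p ⟨j, hj'⟩ <;> simp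
        rw [if_pos (by rw [← h4]; cases mix j p (h p) ⟨j, hj'⟩ <;> rfl), flipBit, h4]
  rw [key k le_rfl, mix_top]

theorem route_eq_walk {k : ℕ} (c : Fin (2 * k) → (Fin k → Bool) → Bool) (s : ℕ)
    (p : Fin k → Bool) : route c s p = walk (2 * k) (bitAt k) c s p := by
  induction s with
  | zero => rfl
  | succ s ih => rw [route, walk, ih]

/-- Walks may be concatenated. -/
theorem walk_append {k : ℕ} (m n : ℕ) (b : Fin (m + n) → Fin k)
    (c : Fin (m + n) → (Fin k → Bool) → Bool) (s : ℕ) (hs : s ≤ n) (p : Fin k → Bool) :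
    walk (m + n) b c (m + s) p =
      walk n (fun i => b (Fin.natAdd m i)) (fun i => c (Fin.natAdd m i)) s
        (walk m (fun i => b (Fin.castAdd n i)) (fun i => c (Fin.castAdd n i)) m p) := by
  induction s with
  | zero =>
    change walk (m + n) b c m p = walk m _ _ m p
    have key : ∀ j, j ≤ m → walk (m + n) b c j p =
        walk m (fun i => b (Fin.castAdd n i)) (fun i => c (Fin.castAdd n i)) j p := by
      intro j
      induction j with
      | zero => intro _; rfl
      | succ j ih =>
        intro hj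
        rw [walk, walk, dif_pos (show j < m + n by omega), dif_pos (show j < m by omega),
          ih (by omega)]
        rfl
    exact key m le_rfl
  | succ s ih =>
    change walk (m + n) b c (m + s + 1) p = _
    rw [walk, walk, dif_pos (show m + s < m + n by omega), dif_pos (show s < n by omega),
      ih (by omega)]
    rfl

/-- The bit used by stage `s` of the selection walk (`2 k` Benes, `k` butterfly, `2 k` Benes). -/
def walkBit (k : ℕ) (s : Fin (5 * k)) : Fin k :=
  if h : (s : ℕ) < 2 * k then bitAt k ⟨s, h⟩ else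
    if h2 : (s : ℕ) < 3 * k then ⟨(s : ℕ) - 2 * k, by omega⟩ else
      bitAt k ⟨(s : ℕ) - 3 * k, by omega⟩

/-- Every function on the positions is realised by a walk through `5 k` free selections. -/
theorem select_walk (k : ℕ) (f : (Fin k → Bool) → (Fin k → Bool)) :
    ∃ c : Fin (5 * k) → (Fin k → Bool) → Bool,
      ∀ i, walk (5 * k) (walkBit k) c (5 * k) i = f i := by
  classical
  obtain ⟨a, b, h, hg, hslow⟩ := slow_decomposition (2 ^ k)
    (fun i => enum k (f ((enum k).symm i)))
  -- transport to positions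
  let A : Equiv.Perm (Fin k → Bool) := ((enum k).trans a).trans (enum k).symm
  let B : Equiv.Perm (Fin k → Bool) := ((enum k).trans b).trans (enum k).symm
  let H : (Fin k → Bool) → (Fin k → Bool) := fun p => (enum k).symm (h (enum k p))
  have hf : ∀ i, f i = B (H (A i)) := by
    intro i
    have := hg (enum k i)
    simp only [Equiv.symm_apply_apply] at this
    rw [← Equiv.symm_apply_eq] at this
    simp [A, B, H, ← this]
  obtain ⟨cA, -, hA⟩ := benes k A
  obtain ⟨cB, -, hB⟩ := benes k B
  obtain ⟨cH, hH⟩ := butterfly H (by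
    intro p q hpq
    simp only [H, Equiv.apply_symm_apply]
    exact hslow _ _ hpq)
  let c : Fin (5 * k) → (Fin k → Bool) → Bool := fun s =>
    if h : (s : ℕ) < 2 * k then cA ⟨s, h⟩ else
      if h2 : (s : ℕ) < 3 * k then cH ⟨(s : ℕ) - 2 * k, by omega⟩ else
        cB ⟨(s : ℕ) - 3 * k, by omega⟩
  refine ⟨c, fun i => ?_⟩
  have k1 : ∀ j, j ≤ 2 * k → walk (5 * k) (walkBit k) c j i = route cA j i := by
    intro j
    induction j with
    | zero => intro _; rfl
    | succ j ih =>
      intro hj
      have h1 : j < 2 * k := hj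
      rw [walk, route, dif_pos (show j < 5 * k by omega), dif_pos h1, ih (by omega)]
      simp only [walkBit, c, h1, dif_pos]
  have k2 : ∀ j, j ≤ k → walk (5 * k) (walkBit k) c (2 * k + j) i = walk k id cH j (A i) := by
    intro j
    induction j with
    | zero => intro _; rw [Nat.add_zero, k1 _ le_rfl, hA]; rfl
    | succ j ih =>
      intro hj
      have h1 : ¬ (2 * k + j < 2 * k) := by omega
      have h2 : 2 * k + j < 3 * k := by omega
      have h3 : 2 * k + j - 2 * k = j := by omega
      change walk (5 * k) (walkBit k) c (2 * k + j + 1) i = _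
      rw [walk, walk, dif_pos (show 2 * k + j < 5 * k by omega), dif_pos (show j < k by omega),
        ih (by omega)]
      simp only [walkBit, c, h1, h2, h3, dif_pos, dif_neg, not_false_eq_true, id]
  have k3 : ∀ j, j ≤ 2 * k → walk (5 * k) (walkBit k) c (3 * k + j) i =
      route cB j (H (A i)) := by
    intro j
    induction j with
    | zero =>
      intro _
      have := k2 k le_rfl
      rw [hH] at this
      rw [Nat.add_zero, show 3 * k = 2 * k + k by ring, this]
      rfl
    | succ j ih =>
      intro hj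
      have h1 : ¬ (3 * k + j < 2 * k) := by omega
      have h2 : ¬ (3 * k + j < 3 * k) := by omega
      have h3 : 3 * k + j - 3 * k = j := by omega
      change walk (5 * k) (walkBit k) c (3 * k + j + 1) i = _
      rw [walk, route, dif_pos (show 3 * k + j < 5 * k by omega),
        dif_pos (show j < 2 * k by omega), ih (by omega)]
      simp only [walkBit, c, h1, h2, h3, dif_neg, not_false_eq_true]
  have := k3 (2 * k) le_rfl
  rw [hB, ← hf] at this
  rw [← this]
  congr 1
  ring

/-- Stage bits in the order of the cells: `selBit k s = walkBit k (5 k - 1 - s)`. -/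
def selBit (k : ℕ) (s : Fin (5 * k)) : Fin k := walkBit k ⟨5 * k - 1 - s, by omega⟩

/-- The cell contents of the selection network: `X_0` given,
`X_(s+1) q = if c_s q then X_s (flip q) else X_s q`. -/
def cells {k : ℕ} {R : Type*} (c : Fin (5 * k) → (Fin k → Bool) → Bool)
    (X : (Fin k → Bool) → R) : ℕ → (Fin k → Bool) → R
  | 0, q => X q
  | s + 1, q => if h : s < 5 * k then
      (if c ⟨s, h⟩ q = true then cells c X s (flipBit (selBit k ⟨s, h⟩) q) else cells c X s q)
      else cells c X s q

/-- Soundness: every cell holds one of the initial contents. -/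
theorem cells_sound {k : ℕ} (c : Fin (5 * k) → (Fin k → Bool) → Bool) (s : ℕ)
    (q : Fin k → Bool) :
    ∃ p : Fin k → Bool, ∀ {R : Type} (X : (Fin k → Bool) → R), cells c X s q = X p := by
  induction s generalizing q with
  | zero => exact ⟨q, fun X => rfl⟩
  | succ s ih =>
    by_cases h : s < 5 * k
    · by_cases h2 : c ⟨s, h⟩ q = true
      · obtain ⟨p, hp⟩ := ih (flipBit (selBit k ⟨s, h⟩) q)
        exact ⟨p, fun X => by rw [cells, dif_pos h, if_pos h2, hp]⟩
      · obtain ⟨p, hp⟩ := ih q
        exact ⟨p, fun X => by rw [cells, dif_pos h, if_neg h2, hp]⟩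
    · obtain ⟨p, hp⟩ := ih q
      exact ⟨p, fun X => by rw [cells, dif_neg h, hp]⟩

/-- Completeness: for every `f` some selections give `X_(5 k) i = X_0 (f i)` (all `X_0`). -/
theorem select_network (k : ℕ) (f : (Fin k → Bool) → (Fin k → Bool)) :
    ∃ c : Fin (5 * k) → (Fin k → Bool) → Bool,
      ∀ {R : Type} (X : (Fin k → Bool) → R) (i : Fin k → Bool), cells c X (5 * k) i = X (f i) := by
  obtain ⟨d, hd⟩ := select_walk k f
  refine ⟨fun s => d ⟨5 * k - 1 - s, by omega⟩, fun {R} X i => ?_⟩
  have key : ∀ j, j ≤ 5 * k →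
      cells (fun s => d ⟨5 * k - 1 - s, by omega⟩) X (5 * k) i =
        cells (fun s => d ⟨5 * k - 1 - s, by omega⟩) X (5 * k - j)
          (walk (5 * k) (walkBit k) d j i) := by
    intro j
    induction j with
    | zero => intro _; rfl
    | succ j ih =>
      intro hj
      rw [ih (by omega)]
      obtain ⟨m, hm⟩ : ∃ m, 5 * k - j = m + 1 := ⟨5 * k - j - 1, by omega⟩
      have h1 : 5 * k - (j + 1) = m := by omega
      have h2 : m < 5 * k := by omega
      have h3 : 5 * k - 1 - m = j := by omega
      have h4 : j < 5 * k := by omega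
      rw [hm, h1, cells, dif_pos h2]
      rw [walk, dif_pos h4]
      simp only [selBit, h3]
      unfold stage
      by_cases h5 : d ⟨j, h4⟩ (walk (5 * k) (walkBit k) d j i) = true
      · rw [if_pos h5, if_pos h5]
      · rw [if_neg h5, if_neg h5]
  have := key (5 * k) le_rfl
  rw [Nat.sub_self, hd] at this
  exact this

end Pool.Agent.HWM.BenesB
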